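import Pool.Agent.H.MP_4eb066_an.Main

/-! Disproof of Q1 of MP_4eb066_an: bounded weak solutions of
`u_t = ∇·(u^{m-1} ∇ K_s[u])`, `1 < m < 2`, need not have infinite speed of propagation in
dimension `N ≥ 2`. -/

open MeasureTheory Set

namespace Pool.Agent.Results.MP_4eb066_an.CompactSupport

open Pool.Agent.H.MP_4eb066_an

/-- For every `N ≥ 2`, `m ∈ (1,2)` and `s ∈ (1/2,1)` there are a bounded, nonnegative, compactly
supported initial datum `u₀`, not a.e. zero, and a function `u` which for every `T > 0` is a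
weak solution on `Q_T` in the sense (i)-(iv) of the problem, is bounded, conserves mass, does not
increase the sup norm, and stays supported in a fixed ball on every time interval `[0,T]`.
In particular `u` does not have infinite speed of propagation. -/
theorem result (N : ℕ) (hN : 2 ≤ N) (m : ℝ) (hm : m ∈ Ioo (1:ℝ) 2) (s : ℝ)
    (hs : s ∈ Ioo (1/2:ℝ) 1) :
    ∃ (u₀ : Sp N → ℝ) (u : ℝ → Sp N → ℝ),
      IsAdmissibleDatum N u₀ ∧
      (∀ T, 0 < T → IsWeakSolution N s m T u₀ u) ∧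
      (∃ C, ∀ t, 0 ≤ t → ∀ x, 0 ≤ u t x ∧ u t x ≤ C) ∧
      (∀ t, 0 ≤ t → ∫ x, u t x = ∫ x, u₀ x) ∧
      (∀ t, 0 ≤ t → eLpNorm (u t) ⊤ volume ≤ eLpNorm u₀ ⊤ volume) ∧
      (∀ T, 0 ≤ T → ∃ R, 0 < R ∧ ∀ t ∈ Icc 0 T, ∀ x, R ≤ ‖x‖ → u t x = 0) ∧
      (∀ T, 0 < T → ¬ HasInfiniteSpeed N T u) := by
  obtain ⟨u₀, u, h1, h2, h3, h4, h5, h6, h7⟩ := main N hN m hm s hs
  refine ⟨u₀, u, h1, h3, h7, h5, h6, h4, ?_⟩
  intro T hT h
  obtain ⟨R, hR, hz⟩ := h4 T hT.le
  have h8 := h (T / 2) ⟨by positivity, by linarith⟩ R hR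
  have h9 : {x : Sp N | R ≤ ‖x‖ ∧ 0 < u (T / 2) x} = ∅ := by
    ext x
    simp only [mem_setOf_eq, mem_empty_iff_false, iff_false, not_and, not_lt]
    intro hx
    rw [hz (T / 2) ⟨by positivity, by linarith⟩ x hx]
  rw [h9, measure_empty] at h8
  exact lt_irrefl _ h8

end Pool.Agent.Results.MP_4eb066_an.CompactSupport
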